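import Pool.Agent.Lib.MP_e2821c_ag.Cy.Final

universe u

open Pool.Agent.MP_e2821c_ag in
/-- In the Suslin complex `Cor (Δ^•_F, G_m^{∧ n})` of a field `F` of characteristic zero, a cycle
in simplicial degree `j + 1 > n / 2` whose non-degenerate components have cyclic geometric
monodromy over the simplex (abelian if `n ≤ 2`) has a positive multiple that is a boundary. -/
theorem Pool.Agent.Results.MP_e2821c_ag.CyclicCycles.result (F : Type u) [Field F] [CharZero F]
    (n j : ℕ) (hj : n < 2 * (j + 1)) (c : Cor F n (j + 1))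
    (hc : ∀ P ∈ c.support, Degenerate F n (j + 1) P ∨ CyclicMono F n (j + 1) P ∨
      (n ≤ 2 ∧ AbelianMono F n (j + 1) P))
    (hb : SameClass F n j (bd F n j c) 0) :
    ∃ N : ℕ, 0 < N ∧
      ∃ b : Cor F n (j + 2), SameClass F n (j + 1) (bd F n (j + 1) b) (N • c) :=
  Cy.cyclic_mono_cycles F n j hj c hc hb
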