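import Pool.Agent.Lib.MP_e2821c_ag.Main

universe u

open Pool.Agent.MP_e2821c_ag in
/-- In the Suslin complex `Cor (Δ^• × U, G_m^{∧ n})` of a normal integral affine scheme
`U = Spec O`, a cycle in simplicial degree at least two all of whose non-degenerate components
have degree at most two over `Δ^j × U` is a boundary. -/
theorem Pool.Agent.Results.MP_e2821c_ag.DegreeTwoCycles.result
    (O : Type u) [CommRing O] [IsDomain O] [IsIntegrallyClosed O] (n j : ℕ)
    (c : Cor O n (j + 2))
    (hc : ∀ P ∈ c.support, Degenerate O n (j + 2) P ∨ deg O n (j + 2) P ≤ 2)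
    (hb : SameClass O n (j + 1) (bd O n (j + 1) c) 0) :
    ∃ b : Cor O n (j + 3), SameClass O n (j + 2) (bd O n (j + 2) b) c :=
  main O n j c hc (by simpa [SameClass] using hb)
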