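import Pool.Agent.Lib.MP_e2821c_ag.Dg.Main

universe u

open Pool.Agent.MP_e2821c_ag in
/-- Let `O` be the local ring at a point of a smooth connected affine scheme over a field of
characteristic zero.  In the Suslin complex `Cor (Δ^• × Spec O, G_m^{∧ 2})` a cycle in simplicial
degree `j + 1` all of whose non-degenerate components have degree at most `j + 1` over
`Δ^{j+1} × Spec O` has a positive multiple that is a boundary. -/
theorem Pool.Agent.Results.MP_e2821c_ag.WeightTwoDegree.result
    (k B O : Type u) [Field k] [CharZero k] [CommRing B] [IsDomain B] [Algebra k B]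
    [Algebra.Smooth k B] (𝔭 : Ideal B) [𝔭.IsPrime] [CommRing O] [Algebra B O]
    [IsLocalization.AtPrime O 𝔭] (j : ℕ) (c : Cor O 2 (j + 1))
    (hc : ∀ P ∈ c.support, Degenerate O 2 (j + 1) P ∨ deg O 2 (j + 1) P ≤ j + 1)
    (hb : SameClass O 2 j (bd O 2 j c) 0) :
    ∃ N : ℕ, 0 < N ∧
      ∃ b : Cor O 2 (j + 2), SameClass O 2 (j + 1) (bd O 2 (j + 1) b) (N • c) := by
  simpa only [natCast_zsmul] using Dg.main k B O 𝔭 j c hc hb
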