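import Pool.Agent.Lib.MP_e2821c_ag.Dg.VarMain

universe u

open Pool.Agent.MP_e2821c_ag in
/-- Let `O` be the local ring at a point of a smooth connected affine scheme over a field of
characteristic zero and `m = j + 1`.  Let `z = ∑ n_c [c]` be a formal integral combination of
effective correspondences `c` from `Δ^m × Spec O` to `G_m^2` (of arbitrary degree and monodromy)
whose formal boundary vanishes.  If no `c` has maximal variation, then a positive multiple of
`∑ n_c c` is a boundary in the Suslin complex `Cor (Δ^• × Spec O, G_m^{∧ 2})`. -/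
theorem Pool.Agent.Results.MP_e2821c_ag.WeightTwoVariation.result
    (k B O : Type u) [Field k] [CharZero k] [CommRing B] [IsDomain B] [Algebra k B]
    [Algebra.Smooth k B] (𝔭 : Ideal B) [𝔭.IsPrime] [CommRing O] [Algebra B O]
    [IsLocalization.AtPrime O 𝔭] (j : ℕ) (z : Cor O 2 (j + 1) →₀ ℤ)
    (hz : ∀ c ∈ z.support, 0 ≤ c ∧ LowVariation O 2 (j + 1) c)
    (hb : formalBd O 2 j z = 0) :
    ∃ N : ℕ, 0 < N ∧ ∃ b : Cor O 2 (j + 2),
      SameClass O 2 (j + 1) (bd O 2 (j + 1) b) (N • z.sum fun c n => n • c) :=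
  (Dg.main_var k B O 𝔭 j).1 z hz hb
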